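import Pool.Agent.W848.N2.Stm

/-!
Project N2 (helper848), MP_061df2_co: closed walks through a transitive 4-cycle.
-/

set_option autoImplicit false

namespace Pool.Agent.W790.N2

open Finset Pool.Agent.W848.N2

theorem ht_zero {k : ℕ} (d : Fin k → Bool) : ht d 0 = 0 := by
  unfold ht
  exact Finset.sum_eq_zero fun i _ => if_neg (Nat.not_lt_zero _)

theorem ht_succ {k : ℕ} (d : Fin k → Bool) (j : ℕ) (hj : j < k) :
    ht d (j + 1) = ht d j + sg (d ⟨j, hj⟩) := by
  unfold ht
  have h1 : ∑ i : Fin k, (if i = ⟨j, hj⟩ then sg (d i) else 0) = sg (d ⟨j, hj⟩) := by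
    rw [Finset.sum_ite_eq' Finset.univ (⟨j, hj⟩ : Fin k) (fun i => sg (d i)),
      if_pos (Finset.mem_univ _)]
  rw [← h1, ← Finset.sum_add_distrib]
  refine Finset.sum_congr rfl fun i _ => ?_
  by_cases h2 : i.val < j
  · have h3 : i ≠ ⟨j, hj⟩ := fun h => by rw [h] at h2; exact lt_irrefl _ h2
    rw [if_pos (by omega), if_pos h2, if_neg h3, add_zero]
  · by_cases h3 : i = ⟨j, hj⟩
    · have h4 : i.val = j := by rw [h3]
      rw [if_pos (by omega), if_neg h2, if_pos h3, zero_add]
    · have h4 : i.val ≠ j := fun h => h3 (Fin.ext h)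
      rw [if_neg (by omega), if_neg h2, if_neg h3, add_zero]

theorem ht_full {k : ℕ} (d : Fin k → Bool) : ht d k = ∑ i, sg (d i) := by
  unfold ht
  exact Finset.sum_congr rfl fun i _ => if_pos i.isLt

theorem ht_step {k : ℕ} (d : Fin k → Bool) (j : ℕ) (hj : j < k) :
    (d ⟨j, hj⟩ = true ∧ ht d (j + 1) = ht d j + 1) ∨
      (d ⟨j, hj⟩ = false ∧ ht d (j + 1) = ht d j - 1) := by
  rw [ht_succ d j hj]
  cases h : d ⟨j, hj⟩
  · right; exact ⟨rfl, by simp [sg]; ring⟩
  · left; exact ⟨rfl, by simp [sg]⟩

theorem ht_par {k : ℕ} (d : Fin k → Bool) : ∀ j : ℕ, j ≤ k → (ht d j - j) % 2 = 0 := by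
  intro j
  induction j with
  | zero => intro _; rw [ht_zero]; rfl
  | succ j ih =>
    intro hj
    have h1 := ih (by omega)
    rcases ht_step d j (by omega) with ⟨-, h2⟩ | ⟨-, h2⟩ <;> rw [h2] <;> push_cast <;> omega

theorem close {V : Type} (m : ℕ) (d : Fin (2 * m) → Bool) (R : V → V → Prop) (w : V → ℝ) (B : ℝ)
    (g : ℕ → V) (hk : g (2 * m) = g 0)
    (hst : ∀ j (hj : j < 2 * m), (d ⟨j, hj⟩ = true → R (g j) (g (j + 1))) ∧
      (d ⟨j, hj⟩ = false → R (g (j + 1)) (g j)))
    (hw : ∀ i < m, w (g (2 * i)) + w (g (2 * i + 1)) ≤ B) :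
    ∃ f : Fin (2 * m) → V, PW R d f ∧ ∑ i, w (f i) ≤ (m : ℝ) * B := by
  refine ⟨fun i => g i.val, ?_, ?_⟩
  · intro i j hj
    have h1 : g j.val = g (i.val + 1) := by
      by_cases h2 : i.val + 1 < 2 * m
      · rw [hj, Nat.mod_eq_of_lt h2]
      · have h3 : i.val + 1 = 2 * m := by have := i.isLt; omega
        rw [hj, h3, Nat.mod_self, hk]
    have h2 := hst i.val i.isLt
    show (d i = true → R (g i.val) (g j.val)) ∧ (d i = false → R (g j.val) (g i.val))
    rw [h1]
    exact h2
  · have h1 : ∑ i : Fin (2 * m), w (g i.val) = ∑ i ∈ range (2 * m), w (g i) :=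
      Fin.sum_univ_eq_sum_range (fun i => w (g i)) (2 * m)
    have h2 : ∀ m : ℕ, ∑ i ∈ range (2 * m), w (g i) =
        ∑ i ∈ range m, (w (g (2 * i)) + w (g (2 * i + 1))) := by
      intro m
      induction m with
      | zero => simp
      | succ m ih =>
        rw [show 2 * (m + 1) = 2 * m + 1 + 1 by ring, Finset.sum_range_succ,
          Finset.sum_range_succ, ih, Finset.sum_range_succ]
        ring
    show ∑ i : Fin (2 * m), w (g i.val) ≤ _
    rw [h1, h2]
    calc ∑ i ∈ range m, (w (g (2 * i)) + w (g (2 * i + 1))) ≤ ∑ _i ∈ range m, B :=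
          Finset.sum_le_sum fun i hi => hw i (Finset.mem_range.1 hi)
      _ = (m : ℝ) * B := by rw [Finset.sum_const, Finset.card_range, nsmul_eq_mul]

theorem exists_zz {V : Type} {R : V → V → Prop} {L : Set V} {w : V → ℝ} {q : ℝ} {x : V}
    (hB : Back R L w q x) (y1 y2 : V) (hy : R x y1) (hw1 : w y1 ≤ q) :
    ∃ z : ℤ → V, z 0 = x ∧ z 1 = y1 ∧ z 2 = y2 ∧ (∀ s ≤ 0, R (z s) (z (s + 1))) ∧
      (∀ s ≤ 1, w (z s) ≤ q) ∧ ∀ s < 0, z s ∈ L ∨ z (s + 1) ∈ L := by
  obtain ⟨u, hu0, hu⟩ := hB
  obtain ⟨z, hz⟩ : ∃ z : ℤ → V, ∀ s, z s = if s ≤ 0 then u (-s).toNat else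
    if s = 1 then y1 else y2 := ⟨_, fun _ => rfl⟩
  have z0 : z 0 = x := by rw [hz, if_pos le_rfl]; simpa using hu0
  have z1 : z 1 = y1 := by rw [hz, if_neg (by norm_num), if_pos rfl]
  have z2 : z 2 = y2 := by rw [hz, if_neg (by norm_num), if_neg (by norm_num)]
  have zn : ∀ n : ℕ, z (-(n : ℤ)) = u n := by
    intro n
    rw [hz, if_pos (by omega)]
    congr 1
    omega
  refine ⟨z, z0, z1, z2, ?_, ?_, ?_⟩
  · intro s hs
    rcases hs.lt_or_eq with h | h
    · obtain ⟨n, hn⟩ : ∃ n : ℕ, s = -((n + 1 : ℕ) : ℤ) := ⟨(-s - 1).toNat, by omega⟩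
      have h1 : s + 1 = -(n : ℤ) := by rw [hn]; push_cast; ring
      rw [h1, hn, zn, zn]
      exact (hu n).1
    · rw [h, zero_add, z0, z1]; exact hy
  · intro s hs
    rcases hs.lt_or_eq with h | h
    · obtain ⟨n, hn⟩ : ∃ n : ℕ, s = -(n : ℤ) := ⟨(-s).toNat, by omega⟩
      rw [hn, zn]
      exact (hu n).2.1
    · rw [h, z1]; exact hw1
  · intro s hs
    obtain ⟨n, hn⟩ : ∃ n : ℕ, s = -((n + 1 : ℕ) : ℤ) := ⟨(-s - 1).toNat, by omega⟩
    have h1 : s + 1 = -(n : ℤ) := by rw [hn]; push_cast; ring
    rw [h1, hn, zn, zn]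
    exact (hu n).2.2.symm

theorem t_QUAD : Pool.Agent.W848.N2.S_QUAD := by
  intro m hm d hd hsum V R w L t q hLt htq hBack hout a b c e ha hb hc he hab hbc hce hae
  obtain ⟨n, rfl⟩ : ∃ n, m = n + 3 := ⟨m - 3, by omega⟩
  obtain ⟨H, hH⟩ : ∃ H : ℕ → ℤ, H = ht d := ⟨_, rfl⟩
  have H0 : H 0 = 0 := by rw [hH]; exact ht_zero d
  have Hk : H (2 * (n + 3)) = 2 := by rw [hH, ht_full]; exact hsum
  have Hst : ∀ j (hj : j < 2 * (n + 3)), (d ⟨j, hj⟩ = true ∧ H (j + 1) = H j + 1) ∨
      (d ⟨j, hj⟩ = false ∧ H (j + 1) = H j - 1) := by rw [hH]; exact ht_step d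
  have Hle : ∀ j, j < 2 * (n + 3) → H j ≤ 1 := by rw [hH]; exact hd
  have Hpar : ∀ j, j ≤ 2 * (n + 3) → (H j - j) % 2 = 0 := by rw [hH]; exact ht_par d
  have hLq : ∀ v ∈ L, w v ≤ q := fun v hv => (hLt v hv).trans htq
  -- the last heights
  have e5 : H (2 * n + 6) = 2 := by rw [← Hk]; congr 1
  have s5 := Hst (2 * n + 5) (by omega)
  have s4 := Hst (2 * n + 4) (by omega)
  have s3 := Hst (2 * n + 3) (by omega)
  have s2 := Hst (2 * n + 2) (by omega)
  have l5 := Hle (2 * n + 5) (by omega)
  have l4 := Hle (2 * n + 4) (by omega)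
  have l3 := Hle (2 * n + 3) (by omega)
  have l2 := Hle (2 * n + 2) (by omega)
  have h5 : H (2 * n + 5) = 1 := by
    rcases s5 with ⟨-, h⟩ | ⟨-, h⟩
    · have : H (2 * n + 5 + 1) = 2 := e5
      omega
    · have : H (2 * n + 5 + 1) = 2 := e5
      omega
  have d5 : d ⟨2 * n + 5, by omega⟩ = true := by
    rcases s5 with ⟨h', -⟩ | ⟨-, h⟩
    · exact h'
    · have : H (2 * n + 5 + 1) = 2 := e5
      omega
  have h4 : H (2 * n + 4) = 0 := by
    rcases s4 with ⟨-, h⟩ | ⟨-, h⟩
    · have : H (2 * n + 4 + 1) = 1 := h5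
      omega
    · have : H (2 * n + 4 + 1) = 1 := h5
      omega
  have d4 : d ⟨2 * n + 4, by omega⟩ = true := by
    rcases s4 with ⟨h', -⟩ | ⟨-, h⟩
    · exact h'
    · have : H (2 * n + 4 + 1) = 1 := h5
      omega
  -- pairs
  have pair : ∀ u v : V, w u ≤ q → w v ≤ q → (u ∈ L ∨ v ∈ L) → w u + w v ≤ t + q := by
    intro u v h1 h2 h3
    rcases h3 with h3 | h3
    · have := hLt u h3; linarith
    · have := hLt v h3; linarith
  -- interior steps, offset 0
  have int0 : ∀ z : ℤ → V, (∀ s ≤ 0, R (z s) (z (s + 1))) → ∀ j (hj : j + 1 < 2 * (n + 3)),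
      (d ⟨j, by omega⟩ = true → R (z (H j)) (z (H (j + 1)))) ∧
      (d ⟨j, by omega⟩ = false → R (z (H (j + 1))) (z (H j))) := by
    intro z hz j hj
    have h1 := Hle j (by omega)
    have h2 := Hle (j + 1) hj
    rcases Hst j (by omega) with ⟨h3, h4⟩ | ⟨h3, h4⟩
    · refine ⟨fun _ => ?_, fun h => absurd (h3.symm.trans h) (by decide)⟩
      rw [h4]
      exact hz _ (by omega)
    · refine ⟨fun h => absurd (h3.symm.trans h) (by decide), fun _ => ?_⟩
      have h5 : H j = H (j + 1) + 1 := by omega
      rw [h5]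
      exact hz _ (by omega)
  have pair0 : ∀ (z : ℤ → V) (x : V), x ∈ L → z 0 = x → (∀ s ≤ 1, w (z s) ≤ q) →
      (∀ s < 0, z s ∈ L ∨ z (s + 1) ∈ L) → ∀ i, 2 * i + 1 < 2 * (n + 3) →
      w (z (H (2 * i))) + w (z (H (2 * i + 1))) ≤ t + q := by
    intro z x hx z0 zw zL i hi
    have h1 := Hle (2 * i) (by omega)
    have h2 := Hle (2 * i + 1) hi
    have h3 := Hpar (2 * i) (by omega)
    push_cast at h3
    apply pair _ _ (zw _ h1) (zw _ h2)
    by_cases h4 : H (2 * i) = 0
    · left; rw [h4, z0]; exact hx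
    · rcases Hst (2 * i) (by omega) with ⟨-, h5⟩ | ⟨-, h5⟩
      · rw [h5]
        exact zL _ (by omega)
      · have h6 : H (2 * i) = H (2 * i + 1) + 1 := by omega
        rw [h6]
        exact (zL _ (by omega)).symm
  have hkk : 2 * (n + 3) = 2 * n + 6 := by ring
  rcases s2 with ⟨d2, h2⟩ | ⟨d2, h2⟩ <;> rcases s3 with ⟨d3, h3⟩ | ⟨d3, h3⟩
  · -- last letters F F F F: `h (k-4) = -2`
    have h3' : H (2 * n + 3 + 1) = 0 := h4
    have h2' : H (2 * n + 3) = -1 := by omega
    rcases Hst 0 (by omega) with ⟨d0, h0⟩ | ⟨d0, h0⟩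
    · -- case (iii)
      rw [H0] at h0
      have h1 : H 1 = 1 := by simpa using h0
      have s1 := Hst 1 (by omega)
      have l2' := Hle 2 (by omega)
      have hH2 : H 2 = 0 := by
        rcases s1 with ⟨-, h⟩ | ⟨-, h⟩
        · have h' : H 2 = H 1 + 1 := h
          omega
        · have h' : H 2 = H 1 - 1 := h
          omega
      have d1 : d ⟨1, by omega⟩ = false := by
        rcases s1 with ⟨-, h⟩ | ⟨h, -⟩
        · have h' : H 2 = H 1 + 1 := h
          omega
        · exact h
      obtain ⟨z, z0, z1, -, zR, zw, zL⟩ := exists_zz (hBack a ha) b c hab (hLq b hb)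
      obtain ⟨g, hg⟩ : ∃ g : ℕ → V, ∀ j, g j = if j = 0 then c else if j = 1 then e else
        if j = 2 * n + 6 then c else if j = 2 * n + 5 then b else z (H j) := ⟨_, fun _ => rfl⟩
      have g0 : g 0 = c := by rw [hg, if_pos rfl]
      have g1 : g 1 = e := by rw [hg, if_neg (by omega), if_pos rfl]
      have g6 : g (2 * n + 6) = c := by
        rw [hg, if_neg (by omega), if_neg (by omega), if_pos rfl]
      have g5 : g (2 * n + 5) = b := by
        rw [hg, if_neg (by omega), if_neg (by omega), if_neg (by omega), if_pos rfl]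
      have gi : ∀ j, 2 ≤ j → j ≤ 2 * n + 4 → g j = z (H j) := by
        intro j hj hj'
        rw [hg, if_neg (by omega), if_neg (by omega), if_neg (by omega), if_neg (by omega)]
      have g4 : g (2 * n + 4) = a := by rw [gi _ (by omega) (by omega), h4, z0]
      have g2 : g 2 = a := by rw [gi _ (by omega) (by omega), hH2, z0]
      refine close (n + 3) d R w (t + q) g (by rw [hkk, g6, g0]) ?_ ?_
      · intro j hj
        by_cases c0 : j = 0
        · subst c0
          refine ⟨fun _ => ?_, fun h => absurd (d0.symm.trans h) (by decide)⟩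
          rw [zero_add, g0, g1]; exact hce
        by_cases c1 : j = 1
        · subst c1
          refine ⟨fun h => absurd (d1.symm.trans h) (by decide), fun _ => ?_⟩
          rw [g1]
          show R (g 2) e
          rw [g2]; exact hae
        by_cases c5 : j = 2 * n + 5
        · subst c5
          refine ⟨fun _ => ?_, fun h => absurd (d5.symm.trans h) (by decide)⟩
          rw [g5]
          show R b (g (2 * n + 6))
          rw [g6]; exact hbc
        by_cases c4 : j = 2 * n + 4
        · subst c4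
          refine ⟨fun _ => ?_, fun h => absurd (d4.symm.trans h) (by decide)⟩
          rw [g4]
          show R a (g (2 * n + 5))
          rw [g5]; exact hab
        rw [gi j (by omega) (by omega), gi (j + 1) (by omega) (by omega)]
        exact int0 z zR j (by omega)
      · intro i hi
        by_cases c0 : i = 0
        · subst c0
          rw [Nat.mul_zero, zero_add, g0, g1]
          exact pair _ _ (hLq c hc) (hLq e he) (Or.inl hc)
        by_cases c4 : i = n + 2
        · subst c4
          rw [show 2 * (n + 2) = 2 * n + 4 by ring, show 2 * n + 4 + 1 = 2 * n + 5 by ring, g4, g5]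
          exact pair _ _ (hLq a ha) (hLq b hb) (Or.inl ha)
        rw [gi _ (by omega) (by omega), gi _ (by omega) (by omega)]
        exact pair0 z a ha z0 zw zL i (by omega)
    · -- case (ii)
      rw [H0] at h0
      have h1 : H 1 = -1 := by simpa using h0
      obtain ⟨z, z0, z1, z2, zR, zw, zL⟩ := exists_zz (hBack a ha) b c hab (hLq b hb)
      have zR' : ∀ s ≤ 1, R (z s) (z (s + 1)) := by
        intro s hs
        rcases hs.lt_or_eq with h | h
        · exact zR s (by omega)
        · rw [h, z1]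
          show R b (z 2)
          rw [z2]; exact hbc
      have zw' : ∀ s ≤ 2, w (z s) ≤ q := by
        intro s hs
        rcases hs.lt_or_eq with h | h
        · exact zw s (by omega)
        · rw [h, z2]; exact hLq c hc
      obtain ⟨g, hg⟩ : ∃ g : ℕ → V, ∀ j, g j = if j = 0 then e else
        if j = 2 * n + 6 then e else if j = 2 * n + 5 then c else if j = 2 * n + 4 then b
        else z (H j + 1) := ⟨_, fun _ => rfl⟩
      have g0 : g 0 = e := by rw [hg, if_pos rfl]
      have g6 : g (2 * n + 6) = e := by rw [hg, if_neg (by omega), if_pos rfl]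
      have g5 : g (2 * n + 5) = c := by
        rw [hg, if_neg (by omega), if_neg (by omega), if_pos rfl]
      have g4 : g (2 * n + 4) = b := by
        rw [hg, if_neg (by omega), if_neg (by omega), if_neg (by omega), if_pos rfl]
      have gi : ∀ j, 1 ≤ j → j ≤ 2 * n + 3 → g j = z (H j + 1) := by
        intro j hj hj'
        rw [hg, if_neg (by omega), if_neg (by omega), if_neg (by omega), if_neg (by omega)]
      have g3 : g (2 * n + 3) = a := by
        rw [gi _ (by omega) (by omega), h2', neg_add_cancel, z0]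
      have g1 : g 1 = a := by rw [gi _ (by omega) (by omega), h1, neg_add_cancel, z0]
      refine close (n + 3) d R w (t + q) g (by rw [hkk, g6, g0]) ?_ ?_
      · intro j hj
        by_cases c0 : j = 0
        · subst c0
          refine ⟨fun h => absurd (d0.symm.trans h) (by decide), fun _ => ?_⟩
          rw [zero_add, g0, g1]; exact hae
        by_cases c5 : j = 2 * n + 5
        · subst c5
          refine ⟨fun _ => ?_, fun h => absurd (d5.symm.trans h) (by decide)⟩
          rw [g5]
          show R c (g (2 * n + 6))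
          rw [g6]; exact hce
        by_cases c4 : j = 2 * n + 4
        · subst c4
          refine ⟨fun _ => ?_, fun h => absurd (d4.symm.trans h) (by decide)⟩
          rw [g4]
          show R b (g (2 * n + 5))
          rw [g5]; exact hbc
        by_cases c3 : j = 2 * n + 3
        · subst c3
          refine ⟨fun _ => ?_, fun h => absurd (d3.symm.trans h) (by decide)⟩
          rw [g3]
          show R a (g (2 * n + 4))
          rw [g4]; exact hab
        rw [gi j (by omega) (by omega), gi (j + 1) (by omega) (by omega)]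
        have k1 := Hle j (by omega)
        have k2 := Hle (j + 1) (by omega)
        rcases Hst j (by omega) with ⟨k3, k4⟩ | ⟨k3, k4⟩
        · refine ⟨fun _ => ?_, fun h => absurd (k3.symm.trans h) (by decide)⟩
          rw [k4]
          exact zR' _ (by omega)
        · refine ⟨fun h => absurd (k3.symm.trans h) (by decide), fun _ => ?_⟩
          have k5 : H j = H (j + 1) + 1 := by omega
          rw [k5]
          exact zR' _ (by omega)
      · intro i hi
        by_cases c0 : i = 0
        · subst c0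
          rw [Nat.mul_zero, zero_add, g0, g1]
          exact pair _ _ (hLq e he) (hLq a ha) (Or.inl he)
        by_cases c4 : i = n + 2
        · subst c4
          rw [show 2 * (n + 2) = 2 * n + 4 by ring, show 2 * n + 4 + 1 = 2 * n + 5 by ring, g4, g5]
          exact pair _ _ (hLq b hb) (hLq c hc) (Or.inl hb)
        rw [gi _ (by omega) (by omega), gi _ (by omega) (by omega)]
        have k1 := Hle (2 * i) (by omega)
        have k2 := Hle (2 * i + 1) (by omega)
        have k3 := Hpar (2 * i) (by omega)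
        push_cast at k3
        apply pair _ _ (zw' _ (by omega)) (zw' _ (by omega))
        by_cases k4 : H (2 * i) = 0
        · left; rw [k4, zero_add, z1]; exact hb
        · rcases Hst (2 * i) (by omega) with ⟨-, k5⟩ | ⟨-, k5⟩
          · rw [k5]
            exact zL _ (by omega)
          · have k6 : H (2 * i) = H (2 * i + 1) + 1 := by omega
            rw [k6]
            exact (zL _ (by omega)).symm
  · -- last letters F B F F: case (i)
    have h3' : H (2 * n + 3 + 1) = 0 := h4
    have h2'' : H (2 * n + 2 + 1) = H (2 * n + 3) := rfl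
    have hb4 : H (2 * n + 2) = 0 := by omega
    obtain ⟨y, hy, hwy⟩ := hout c
    obtain ⟨z, z0, z1, -, zR, zw, zL⟩ := exists_zz (hBack c hc) y y hy hwy
    obtain ⟨g, hg⟩ : ∃ g : ℕ → V, ∀ j, g j = if j = 2 * n + 6 then c else
      if j = 2 * n + 5 then b else if j = 2 * n + 4 then a else if j = 2 * n + 3 then e
      else z (H j) := ⟨_, fun _ => rfl⟩
    have g6 : g (2 * n + 6) = c := by rw [hg, if_pos rfl]
    have g5 : g (2 * n + 5) = b := by rw [hg, if_neg (by omega), if_pos rfl]
    have g4 : g (2 * n + 4) = a := by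
      rw [hg, if_neg (by omega), if_neg (by omega), if_pos rfl]
    have g3 : g (2 * n + 3) = e := by
      rw [hg, if_neg (by omega), if_neg (by omega), if_neg (by omega), if_pos rfl]
    have gi : ∀ j, j ≤ 2 * n + 2 → g j = z (H j) := by
      intro j hj'
      rw [hg, if_neg (by omega), if_neg (by omega), if_neg (by omega), if_neg (by omega)]
    have g2 : g (2 * n + 2) = c := by rw [gi _ le_rfl, hb4, z0]
    have g0 : g 0 = c := by rw [gi _ (by omega), H0, z0]
    refine close (n + 3) d R w (t + q) g (by rw [hkk, g6, g0]) ?_ ?_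
    · intro j hj
      by_cases c5 : j = 2 * n + 5
      · subst c5
        refine ⟨fun _ => ?_, fun h => absurd (d5.symm.trans h) (by decide)⟩
        rw [g5]
        show R b (g (2 * n + 6))
        rw [g6]; exact hbc
      by_cases c4 : j = 2 * n + 4
      · subst c4
        refine ⟨fun _ => ?_, fun h => absurd (d4.symm.trans h) (by decide)⟩
        rw [g4]
        show R a (g (2 * n + 5))
        rw [g5]; exact hab
      by_cases c3 : j = 2 * n + 3
      · subst c3
        refine ⟨fun h => absurd (d3.symm.trans h) (by decide), fun _ => ?_⟩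
        rw [g3]
        show R (g (2 * n + 4)) e
        rw [g4]; exact hae
      by_cases c2 : j = 2 * n + 2
      · subst c2
        refine ⟨fun _ => ?_, fun h => absurd (d2.symm.trans h) (by decide)⟩
        rw [g2]
        show R c (g (2 * n + 3))
        rw [g3]; exact hce
      rw [gi j (by omega), gi (j + 1) (by omega)]
      exact int0 z zR j (by omega)
    · intro i hi
      by_cases c4 : i = n + 2
      · subst c4
        rw [show 2 * (n + 2) = 2 * n + 4 by ring, show 2 * n + 4 + 1 = 2 * n + 5 by ring, g4, g5]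
        exact pair _ _ (hLq a ha) (hLq b hb) (Or.inl ha)
      by_cases c2 : i = n + 1
      · subst c2
        rw [show 2 * (n + 1) = 2 * n + 2 by ring, show 2 * n + 2 + 1 = 2 * n + 3 by ring, g2, g3]
        exact pair _ _ (hLq c hc) (hLq e he) (Or.inl hc)
      rw [gi _ (by omega), gi _ (by omega)]
      exact pair0 z c hc z0 zw zL i (by omega)
  · -- last letters B F F F: case (i')
    have h3' : H (2 * n + 3 + 1) = 0 := h4
    have h2'' : H (2 * n + 2 + 1) = H (2 * n + 3) := rfl
    have hb4 : H (2 * n + 2) = 0 := by omega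
    obtain ⟨y, hy, hwy⟩ := hout e
    obtain ⟨z, z0, z1, -, zR, zw, zL⟩ := exists_zz (hBack e he) y y hy hwy
    obtain ⟨g, hg⟩ : ∃ g : ℕ → V, ∀ j, g j = if j = 2 * n + 6 then e else
      if j = 2 * n + 5 then c else if j = 2 * n + 4 then b else if j = 2 * n + 3 then a
      else z (H j) := ⟨_, fun _ => rfl⟩
    have g6 : g (2 * n + 6) = e := by rw [hg, if_pos rfl]
    have g5 : g (2 * n + 5) = c := by rw [hg, if_neg (by omega), if_pos rfl]
    have g4 : g (2 * n + 4) = b := by
      rw [hg, if_neg (by omega), if_neg (by omega), if_pos rfl]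
    have g3 : g (2 * n + 3) = a := by
      rw [hg, if_neg (by omega), if_neg (by omega), if_neg (by omega), if_pos rfl]
    have gi : ∀ j, j ≤ 2 * n + 2 → g j = z (H j) := by
      intro j hj'
      rw [hg, if_neg (by omega), if_neg (by omega), if_neg (by omega), if_neg (by omega)]
    have g2 : g (2 * n + 2) = e := by rw [gi _ le_rfl, hb4, z0]
    have g0 : g 0 = e := by rw [gi _ (by omega), H0, z0]
    refine close (n + 3) d R w (t + q) g (by rw [hkk, g6, g0]) ?_ ?_
    · intro j hj
      by_cases c5 : j = 2 * n + 5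
      · subst c5
        refine ⟨fun _ => ?_, fun h => absurd (d5.symm.trans h) (by decide)⟩
        rw [g5]
        show R c (g (2 * n + 6))
        rw [g6]; exact hce
      by_cases c4 : j = 2 * n + 4
      · subst c4
        refine ⟨fun _ => ?_, fun h => absurd (d4.symm.trans h) (by decide)⟩
        rw [g4]
        show R b (g (2 * n + 5))
        rw [g5]; exact hbc
      by_cases c3 : j = 2 * n + 3
      · subst c3
        refine ⟨fun _ => ?_, fun h => absurd (d3.symm.trans h) (by decide)⟩
        rw [g3]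
        show R a (g (2 * n + 4))
        rw [g4]; exact hab
      by_cases c2 : j = 2 * n + 2
      · subst c2
        refine ⟨fun h => absurd (d2.symm.trans h) (by decide), fun _ => ?_⟩
        rw [g2]
        show R (g (2 * n + 3)) e
        rw [g3]; exact hae
      rw [gi j (by omega), gi (j + 1) (by omega)]
      exact int0 z zR j (by omega)
    · intro i hi
      by_cases c4 : i = n + 2
      · subst c4
        rw [show 2 * (n + 2) = 2 * n + 4 by ring, show 2 * n + 4 + 1 = 2 * n + 5 by ring, g4, g5]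
        exact pair _ _ (hLq b hb) (hLq c hc) (Or.inl hb)
      by_cases c2 : i = n + 1
      · subst c2
        rw [show 2 * (n + 1) = 2 * n + 2 by ring, show 2 * n + 2 + 1 = 2 * n + 3 by ring, g2, g3]
        exact pair _ _ (hLq e he) (hLq a ha) (Or.inl he)
      rw [gi _ (by omega), gi _ (by omega)]
      exact pair0 z e he z0 zw zL i (by omega)
  · -- B B is impossible: `h (k-4) = 2`
    have h3' : H (2 * n + 3 + 1) = 0 := h4
    have h2'' : H (2 * n + 2 + 1) = H (2 * n + 3) := rfl
    omega

end Pool.Agent.W790.N2
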